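import Pool.Agent.H62.NullFin

set_option autoImplicit false
open MeasureTheory Filter Topology

namespace Pool.Agent.Results.MP_def4bf_gt.NullMeagre

/-- null-finite sets -/
def NullFinite {G : Type} [AddCommGroup G] [TopologicalSpace G] (B : Set G) : Prop :=
  ∃ x : ℕ → G, Tendsto x atTop (𝓝 0) ∧ ∀ y : G, {n | y + x n ∈ B}.Finite

/-- `A` is covered by countably many Borel null-finite sets -/
def SigmaNF {G : Type} [AddCommGroup G] [TopologicalSpace G] (A : Set G) : Prop :=
  ∃ B : ℕ → Set G, (∀ k, @MeasurableSet G (borel G) (B k) ∧ NullFinite (B k)) ∧ A ⊆ ⋃ k, B k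

/-- some Borel probability measure gives every translate of `B` measure zero -/
def HaarNull {G : Type} [AddCommGroup G] [TopologicalSpace G] (B : Set G) : Prop :=
  ∃ μ : @Measure G (borel G), IsProbabilityMeasure μ ∧ ∀ x : G, μ ((fun y => y + x) '' B) = 0

/-- some continuous map from a nonempty compact metrizable space sees every translate of `B` as meagre -/
def HaarMeagre {G : Type} [AddCommGroup G] [TopologicalSpace G] (B : Set G) : Prop :=
  ∃ (K : Type) (_ : TopologicalSpace K), CompactSpace K ∧ TopologicalSpace.MetrizableSpace K ∧ Nonempty K ∧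
    ∃ f : K → G, Continuous f ∧ ∀ x : G, IsMeagre (f ⁻¹' ((fun y => y + x) '' B))

open Pool.Agent.H62.NullFin in
theorem result : ∃ (G : Type) (_ : AddCommGroup G) (_ : TopologicalSpace G),
    IsTopologicalAddGroup G ∧ PolishSpace G ∧
      ∃ F : Set G, IsClosed F ∧ HaarNull F ∧ HaarMeagre F ∧ ¬ SigmaNF F :=
  ⟨X, inferInstance, inferInstance, inferInstance, inferInstance, {y | ∀ n, y n ≠ 0}, closed 0, by
    unfold HaarNull
    rw [← BorelSpace.measurable_eq (α := X)]
    simpa only [img] using null,
    ⟨X, inferInstance, inferInstance, inferInstance, inferInstance, id, continuous_id, fun x => by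
      simpa only [img, Set.preimage_id] using meagre x⟩,
    fun ⟨B, h1, h2⟩ => not_cover B (fun k => BorelSpace.measurable_eq (α := X) ▸ (h1 k).1) (fun k => (h1 k).2) h2⟩

end Pool.Agent.Results.MP_def4bf_gt.NullMeagre
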